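import Mathlib

/-! Minors of circulant matrices of odd order with row sum zero. -/

set_option autoImplicit false

namespace Pool.Agent.Q267.CD

open Matrix Finset

/-- the determinant of a symmetric block pattern -/
lemma det_AB {m : Type*} [Fintype m] [DecidableEq m] (A B : Matrix m m ℤ) :
    (fromBlocks A B B A).det = (A + B).det * (A - B).det := by
  have h1 : (fromBlocks (1 : Matrix m m ℤ) 0 1 1) * (fromBlocks A B B A) *
      (fromBlocks (1 : Matrix m m ℤ) 0 (-1) 1) = fromBlocks (A - B) B 0 (A + B) := by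
    rw [fromBlocks_multiply, fromBlocks_multiply]
    congr 1 <;> simp [sub_eq_add_neg, add_comm]
    abel
  have h2 := congrArg Matrix.det h1
  rw [det_mul, det_mul, det_fromBlocks_zero₂₁, det_fromBlocks_zero₁₂, det_fromBlocks_zero₁₂] at h2
  simp only [det_one, mul_one, one_mul] at h2
  rw [h2, mul_comm]

/-- for a matrix with vanishing row and column sums -/
lemma det_add_ones {ι : Type*} [Fintype ι] [DecidableEq ι] (A : Matrix ι ι ℤ) (i0 : ι)
    (hr : ∀ i, ∑ j, A i j = 0) (hc : ∀ j, ∑ i, A i j = 0) :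
    (Matrix.of fun i j => A i j + 1).det =
      (Fintype.card ι : ℤ) ^ 2 * (A.toSquareBlockProp (fun i => ¬ i = i0)).det := by
  set N : ℤ := (Fintype.card ι : ℤ) with hN
  set M : Matrix ι ι ℤ := Matrix.of fun i j => A i j + 1 with hM
  -- replace row `i0` by the sum of all rows
  have h1 : (M.updateRow i0 (∑ k, (1 : ι → ℤ) k • M k)).det = (1 : ι → ℤ) i0 • M.det :=
    det_updateRow_sum M i0 1
  have h2 : (∑ k, (1 : ι → ℤ) k • M k) = N • (fun _ => (1 : ℤ)) := by
    funext j
    rw [Finset.sum_apply]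
    have h : ∀ c, ((1 : ι → ℤ) c • M c) j = A c j + 1 := fun c => by
      show (1 : ℤ) * (A c j + 1) = _
      ring
    rw [sum_congr rfl fun c _ => h c, sum_add_distrib, hc, zero_add]
    simp [hN]
  rw [h2, det_updateRow_smul, Pi.one_apply, one_smul] at h1
  -- subtract it from the others
  have h3 : (M.updateRow i0 (fun _ => (1 : ℤ))).det = (A.updateRow i0 (fun _ => (1 : ℤ))).det := by
    refine det_eq_of_forall_row_eq_smul_add_const (fun i => if i = i0 then 0 else 1) i0
      (by simp) ?_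
    intro i j
    by_cases hi : i = i0
    · subst hi
      simp
    · rw [updateRow_ne hi, updateRow_ne hi, updateRow_self, if_neg hi]
      simp [hM]
  set P : Matrix ι ι ℤ := A.updateRow i0 (fun _ => (1 : ℤ)) with hP
  have h4 : (P.updateCol i0 (fun k => ∑ i, (1 : ι → ℤ) i • P k i)).det = (1 : ι → ℤ) i0 • P.det :=
    det_updateCol_sum P i0 1
  have h5 : (fun k => ∑ i, (1 : ι → ℤ) i • P k i) = N • (Pi.single i0 (1 : ℤ)) := by
    funext k
    rw [Pi.smul_apply, smul_eq_mul]
    by_cases hk : k = i0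
    · subst hk
      simp [hP, hN]
    · rw [Pi.single_eq_of_ne hk, mul_zero]
      have h : ∀ i, (1 : ι → ℤ) i • P k i = A k i := fun i => by
        show (1 : ℤ) * P k i = _
        rw [hP, updateRow_ne hk, one_mul]
      rw [sum_congr rfl fun c _ => h c]
      exact hr k
  rw [h5, det_updateCol_smul, Pi.one_apply, one_smul] at h4
  set Q : Matrix ι ι ℤ := P.updateCol i0 (Pi.single i0 (1 : ℤ)) with hQ
  have h6 := twoBlockTriangular_det Q (fun i => i = i0) (by
    intro i hi j hj
    subst hj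
    simp only [hQ, updateCol_self]
    exact Pi.single_eq_of_ne hi _)
  have h7 : ∀ (i1 : Fintype {i : ι // i = i0}) (i2 : DecidableEq {i : ι // i = i0}),
      @Matrix.det _ i2 i1 ℤ _ (Q.toSquareBlockProp (fun i => i = i0)) = 1 := by
    intro i1 i2
    have : Unique {i : ι // i = i0} := ⟨⟨⟨i0, rfl⟩⟩, fun x => Subtype.ext x.2⟩
    rw [det_unique]
    have hx : ((default : {i : ι // i = i0}) : ι) = i0 := (default : {i : ι // i = i0}).2
    rw [toSquareBlockProp_def]
    simp only [Matrix.of_apply]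
    rw [hx]
    simp [hQ]
  have h8 : (Q.toSquareBlockProp (fun i => ¬ i = i0)) = A.toSquareBlockProp (fun i => ¬ i = i0) := by
    ext i j
    rw [toSquareBlockProp_def, toSquareBlockProp_def]
    simp only [Matrix.of_apply, hQ, hP]
    rw [updateCol_ne j.2, updateRow_ne i.2]
  have h9 : Q.det = (Q.toSquareBlockProp (fun i => ¬ i = i0)).det := by
    rw [h6, h7, one_mul]
  rw [h8] at h9
  rw [← h1, h3, ← h4, h9]
  ring

section circ

variable {N : ℕ} [NeZero N]

/-- the circulant matrix without its row and column `0` -/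
def mnr (a : ZMod N → ℤ) : Matrix {i : ZMod N // ¬ i = 0} {i : ZMod N // ¬ i = 0} ℤ :=
  Matrix.of fun i j => a (i - j)

lemma circ_det (a : ZMod N → ℤ) (ha : ∑ i, a i = 0) :
    (Matrix.of fun i j : ZMod N => a (i - j) + 1).det = (N : ℤ) ^ 2 * (mnr a).det := by
  have h := det_add_ones (Matrix.of fun i j : ZMod N => a (i - j)) 0
    (fun i => by
      simp only [Matrix.of_apply]
      rw [← ha]
      exact Equiv.sum_comp (Equiv.subLeft i) a)
    (fun j => by
      simp only [Matrix.of_apply]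
      rw [← ha]
      exact Equiv.sum_comp (Equiv.subRight j) a)
  rw [ZMod.card] at h
  exact h

/-- the minor does not change if the function is translated -/
lemma mnr_shift (hN : Odd N) (a : ZMod N → ℤ) (ha : ∑ i, a i = 0) (e : ZMod N) :
    (mnr a).det = (mnr fun i => a (i + e)).det := by
  have h1 := circ_det a ha
  have h2 := circ_det (fun i => a (i + e)) (by
    rw [← ha]
    exact Equiv.sum_comp (Equiv.addRight e) a)
  have h3 : (Matrix.of fun i j : ZMod N => a (i - j + e) + 1) =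
      (Matrix.of fun i j : ZMod N => a (i - j) + 1).submatrix (Equiv.addRight e) id := by
    ext i j
    simp only [Matrix.of_apply, submatrix_apply, Equiv.coe_addRight, id]
    congr 2
    ring
  have h4 : Equiv.Perm.sign (Equiv.addRight e : Equiv.Perm (ZMod N)) = 1 := by
    have h5 : (Equiv.addRight e : Equiv.Perm (ZMod N)) ^ N = 1 := by
      have : ∀ k : ℕ, (Equiv.addRight e : Equiv.Perm (ZMod N)) ^ k = Equiv.addRight (k * e) := by
        intro k
        induction k with
        | zero => ext x; simp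
        | succ k ih =>
          rw [pow_succ, ih]
          ext x
          simp only [Equiv.Perm.coe_mul, Function.comp_apply, Equiv.coe_addRight]
          push_cast
          ring
      rw [this, ZMod.natCast_self, zero_mul]
      ext x
      simp
    have h6 := congrArg Equiv.Perm.sign h5
    rw [map_pow, map_one] at h6
    rcases Int.units_eq_one_or (Equiv.Perm.sign (Equiv.addRight e : Equiv.Perm (ZMod N))) with h | h
    · exact h
    · rw [h, hN.neg_one_pow] at h6
      exact absurd h6 (by decide)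
  have h5 : (Matrix.of fun i j : ZMod N => a (i - j + e) + 1).det =
      (Matrix.of fun i j : ZMod N => a (i - j) + 1).det := by
    rw [h3, det_permute, h4]
    simp
  rw [h5, h1] at h2
  have hN0 : (N : ℤ) ^ 2 ≠ 0 := pow_ne_zero 2 (by exact_mod_cast NeZero.ne N)
  exact mul_left_cancel₀ hN0 h2

/-! ### symmetric circulant matrices -/

section sym

variable {m : ℕ}

/-- the elements `±1, …, ±m` of `ℤ/(2m+1)` -/
def emb (m : ℕ) : Fin m ⊕ Fin m → ZMod (2 * m + 1)
  | Sum.inl a => ((a : ℕ) + 1 : ℕ)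
  | Sum.inr a => -((a : ℕ) + 1 : ℕ)

lemma cast_ne_zero {k : ℕ} (h0 : 0 < k) (h1 : k < 2 * m + 1) : ((k : ℕ) : ZMod (2 * m + 1)) ≠ 0 := by
  intro h
  exact absurd (Nat.le_of_dvd h0 ((ZMod.natCast_eq_zero_iff k _).1 h)) (by omega)

lemma cast_inj {a b : ℕ} (h0 : a < 2 * m + 1) (h1 : b < 2 * m + 1)
    (h : ((a : ℕ) : ZMod (2 * m + 1)) = b) : a = b := by
  have := (ZMod.natCast_eq_natCast_iff' a b _).1 h
  rwa [Nat.mod_eq_of_lt h0, Nat.mod_eq_of_lt h1] at this

lemma emb_ne (x : Fin m ⊕ Fin m) : emb m x ≠ 0 := by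
  rcases x with a | a
  · exact cast_ne_zero (by omega) (by omega)
  · intro h
    exact cast_ne_zero (m := m) (k := (a : ℕ) + 1) (by omega) (by omega) (neg_eq_zero.1 h)

lemma emb_inj : Function.Injective (emb m) := by
  have hlr : ∀ a b : Fin m, ((a : ℕ) + 1 : ℕ) ≠ (-((b : ℕ) + 1 : ℕ) : ZMod (2 * m + 1)) := by
    intro a b h
    have h1 : ((((a : ℕ) + 1) + ((b : ℕ) + 1) : ℕ) : ZMod (2 * m + 1)) = 0 := by
      push_cast at h ⊢
      linear_combination h
    exact cast_ne_zero (m := m) (by omega) (by omega) h1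
  rintro (a | a) (b | b) h
  · have := cast_inj (m := m) (by omega) (by omega) h
    have : (a : ℕ) = b := by omega
    rw [Fin.ext this]
  · exact absurd h (hlr a b)
  · exact absurd h.symm (hlr b a)
  · have h' := neg_injective h
    have := cast_inj (m := m) (by omega) (by omega) h'
    have : (a : ℕ) = b := by omega
    rw [Fin.ext this]

/-- the same as a bijection onto the nonzero elements -/
noncomputable def embE (m : ℕ) : Fin m ⊕ Fin m ≃ {i : ZMod (2 * m + 1) // ¬ i = 0} :=
  Equiv.ofBijective (fun x => ⟨emb m x, emb_ne x⟩) <| by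
    rw [Fintype.bijective_iff_injective_and_card]
    refine ⟨fun x y h => emb_inj (congrArg Subtype.val h), ?_⟩
    rw [Fintype.card_sum, Fintype.card_fin, Fintype.card_subtype_compl, Fintype.card_subtype_eq,
      ZMod.card]
    omega

lemma embE_apply (x : Fin m ⊕ Fin m) : ((embE m x : {i : ZMod (2 * m + 1) // ¬ i = 0}) :
    ZMod (2 * m + 1)) = emb m x := rfl

lemma sum_split {A : Type*} [AddCommMonoid A] (G : ZMod (2 * m + 1) → A) :
    ∑ y, G y = G 0 + ∑ k : Fin m, (G (((k : ℕ) + 1 : ℕ)) + G (-((k : ℕ) + 1 : ℕ))) := by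
  rw [← Finset.add_sum_erase univ G (mem_univ 0)]
  congr 1
  have h1 : ∑ y ∈ univ.erase (0 : ZMod (2 * m + 1)), G y =
      ∑ y : {i : ZMod (2 * m + 1) // ¬ i = 0}, G y := by
    rw [← Finset.sum_subtype]
    intro x
    simp
  rw [h1, ← Equiv.sum_comp (embE m), Fintype.sum_sum_type, sum_add_distrib]
  rfl

variable (c : ZMod (2 * m + 1) → ℤ)

/-- the even part -/
def EE : Matrix (Fin m) (Fin m) ℤ := Matrix.of fun i j =>
  c (((i : ℕ) + 1 : ℕ) - ((j : ℕ) + 1 : ℕ)) + c (((i : ℕ) + 1 : ℕ) + ((j : ℕ) + 1 : ℕ))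

/-- the odd part -/
def OO : Matrix (Fin m) (Fin m) ℤ := Matrix.of fun i j =>
  c (((i : ℕ) + 1 : ℕ) - ((j : ℕ) + 1 : ℕ)) - c (((i : ℕ) + 1 : ℕ) + ((j : ℕ) + 1 : ℕ))

lemma mnr_split (hc : ∀ i, c (-i) = c i) : (mnr c).det = (EE c).det * (OO c).det := by
  rw [← det_submatrix_equiv_self (embE m) (mnr c)]
  have h : (mnr c).submatrix (embE m) (embE m) = fromBlocks
      (Matrix.of fun i j : Fin m => c (((i : ℕ) + 1 : ℕ) - ((j : ℕ) + 1 : ℕ)))
      (Matrix.of fun i j : Fin m => c (((i : ℕ) + 1 : ℕ) + ((j : ℕ) + 1 : ℕ)))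
      (Matrix.of fun i j : Fin m => c (((i : ℕ) + 1 : ℕ) + ((j : ℕ) + 1 : ℕ)))
      (Matrix.of fun i j : Fin m => c (((i : ℕ) + 1 : ℕ) - ((j : ℕ) + 1 : ℕ))) := by
    ext x y
    rcases x with a | a <;> rcases y with b | b <;>
      simp only [submatrix_apply, mnr, Matrix.of_apply, embE_apply, emb, fromBlocks_apply₁₁,
        fromBlocks_apply₁₂, fromBlocks_apply₂₁, fromBlocks_apply₂₂]
    · congr 1
      ring
    · rw [← hc]
      congr 1
      ring
    · rw [← hc]
      congr 1
      ring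
  rw [h, det_AB]
  rfl

/-- indicator of `±j` -/
def FF (j : Fin m) (x : ZMod (2 * m + 1)) : ℤ :=
  (if x = ((j : ℕ) + 1 : ℕ) then 1 else 0) + (if x = -((j : ℕ) + 1 : ℕ) then 1 else 0)

lemma FF_neg (j : Fin m) (x : ZMod (2 * m + 1)) : FF j (-x) = FF j x := by
  unfold FF
  rw [add_comm]
  congr 1
  · congr 1
    rw [neg_inj]
  · congr 1
    rw [neg_eq_iff_eq_neg]

lemma FF_zero (j : Fin m) : FF j 0 = 0 := by
  unfold FF
  have h1 : (0 : ZMod (2 * m + 1)) ≠ ((j : ℕ) + 1 : ℕ) :=
    (cast_ne_zero (m := m) (by omega) (by omega)).symm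
  have h2 : (0 : ZMod (2 * m + 1)) ≠ -((j : ℕ) + 1 : ℕ) := (emb_ne (Sum.inr j)).symm
  rw [if_neg h1, if_neg h2, add_zero]

lemma sum_FF (G : ZMod (2 * m + 1) → ℤ) (j : Fin m) :
    ∑ y, G y * FF j y = G (((j : ℕ) + 1 : ℕ)) + G (-((j : ℕ) + 1 : ℕ)) := by
  unfold FF
  simp only [mul_add, mul_ite, mul_one, mul_zero]
  rw [sum_add_distrib, sum_ite_eq', sum_ite_eq']
  simp

/-- an even function vanishing at `0` -/
lemma even_expand (H : ZMod (2 * m + 1) → ℤ) (h0 : H 0 = 0) (he : ∀ x, H (-x) = H x)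
    (x : ZMod (2 * m + 1)) : H x = ∑ k : Fin m, FF k x * H (((k : ℕ) + 1 : ℕ)) := by
  have h1 := sum_split (fun y => (if x = y then H y else 0))
  rw [sum_ite_eq] at h1
  simp only [mem_univ, if_true] at h1
  rw [h1, h0]
  simp only [ite_self, zero_add]
  refine sum_congr rfl fun k _ => ?_
  unfold FF
  rw [he, add_mul]
  simp only [ite_mul, one_mul, zero_mul]

/-- the difference operator from even to odd functions -/
def DD (m : ℕ) : Matrix (Fin m) (Fin m) ℤ := Matrix.of fun i j =>
  FF j (((i : ℕ) + 1 : ℕ) + 1) - FF j (((i : ℕ) + 1 : ℕ) - 1)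

lemma DD_det_ne (m : ℕ) : (DD m).det ≠ 0 := by
  intro h
  obtain ⟨v, hv0, hv⟩ := Matrix.exists_mulVec_eq_zero_iff.2 h
  apply hv0
  set V : ZMod (2 * m + 1) → ℤ := fun x => ∑ j, FF j x * v j with hV
  have hV0 : V 0 = 0 := by
    simp only [hV, FF_zero, zero_mul, sum_const_zero]
  have hVe : ∀ x, V (-x) = V x := fun x => by simp only [hV, FF_neg]
  have hstep1 : ∀ i : Fin m, V (((i : ℕ) + 1 : ℕ) + 1) = V (((i : ℕ) + 1 : ℕ) - 1) := by
    intro i
    have h1 := congrFun hv i
    simp only [mulVec, dotProduct, DD, Matrix.of_apply, Pi.zero_apply, sub_mul,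
      sum_sub_distrib] at h1
    exact sub_eq_zero.1 h1
  have hstep : ∀ x, V (x + 1) = V (x - 1) := by
    intro x
    by_cases hx : x = 0
    · subst hx
      rw [zero_add, zero_sub, hVe]
    · obtain ⟨y, hy⟩ := (embE m).surjective ⟨x, hx⟩
      have hy' : emb m y = x := congrArg Subtype.val hy
      rcases y with a | a
      · rw [← hy']
        exact hstep1 a
      · rw [← hy']
        have h1 := hstep1 a
        show V (-((a : ℕ) + 1 : ℕ) + 1) = V (-((a : ℕ) + 1 : ℕ) - 1)
        rw [← hVe, ← hVe (-((a : ℕ) + 1 : ℕ) - 1)]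
        have e1 : -(-(((a : ℕ) + 1 : ℕ) : ZMod (2 * m + 1)) + 1) = ((a : ℕ) + 1 : ℕ) - 1 := by ring
        have e2 : -(-(((a : ℕ) + 1 : ℕ) : ZMod (2 * m + 1)) - 1) = ((a : ℕ) + 1 : ℕ) + 1 := by ring
        rw [e1, e2, h1]
  have hper : ∀ k : ℕ, ∀ x, V (x + 2 * k) = V x := by
    intro k
    induction k with
    | zero => intro x; simp
    | succ k ih =>
      intro x
      have := hstep (x + 2 * k + 1)
      have e1 : x + 2 * ((k + 1 : ℕ) : ZMod (2 * m + 1)) = x + 2 * k + 1 + 1 := by push_cast; ring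
      have e2 : x + 2 * (k : ZMod (2 * m + 1)) + 1 - 1 = x + 2 * k := by ring
      rw [e1, this, e2, ih]
  have hall : ∀ x, V x = 0 := by
    intro x
    have h1 := hper (m + 1) 0
    have h2 : ∀ k : ℕ, V (k : ZMod (2 * m + 1)) = 0 := by
      intro k
      have h3 := hper ((m + 1) * k) 0
      have e : (0 : ZMod (2 * m + 1)) + 2 * (((m + 1) * k : ℕ) : ZMod (2 * m + 1)) = k := by
        have h4 : (((2 * m + 1 : ℕ)) : ZMod (2 * m + 1)) = 0 := ZMod.natCast_self _
        push_cast at h4 ⊢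
        linear_combination (k : ZMod (2 * m + 1)) * h4
      rw [e, hV0] at h3
      exact h3
    rw [← ZMod.natCast_zmod_val x]
    exact h2 _
  funext j
  have h1 := hall (((j : ℕ) + 1 : ℕ))
  have h2 : V (((j : ℕ) + 1 : ℕ)) = v j := by
    simp only [hV]
    rw [sum_eq_single j]
    · unfold FF
      rw [if_pos rfl, if_neg, add_zero, one_mul]
      intro h3
      exact absurd (emb_inj (a₁ := Sum.inl j) (a₂ := Sum.inr j) h3) (by simp)
    · intro b _ hb
      unfold FF
      rw [if_neg, if_neg, add_zero, zero_mul]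
      · intro h3
        exact absurd (emb_inj (a₁ := Sum.inl j) (a₂ := Sum.inr b) h3) (by simp)
      · intro h3
        have := emb_inj (a₁ := Sum.inl j) (a₂ := Sum.inl b) h3
        exact hb (Sum.inl_injective this).symm
    · intro h3
      exact absurd (mem_univ j) h3
  rw [← h2, h1]
  rfl

lemma OO_eq (hc : ∀ i, c (-i) = c i) (hs : ∑ i, c i = 0) :
    (OO c).det = ((2 * m + 1 : ℕ) : ℤ) * (EE c).det := by
  -- the matrix on even functions modulo constants
  set h : Fin m → ZMod (2 * m + 1) → ℤ := fun j x =>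
    c (x - ((j : ℕ) + 1 : ℕ)) + c (x + ((j : ℕ) + 1 : ℕ)) with hh
  have hheven : ∀ j x, h j (-x) = h j x := by
    intro j x
    simp only [hh]
    rw [← hc (-x - _), ← hc (-x + _), add_comm]
    congr 1 <;> congr 1 <;> ring
  have hhsum : ∀ j x, ∑ y, c (x - y) * FF j y = h j x := by
    intro j x
    rw [sum_FF (fun y => c (x - y)) j]
    simp only [hh, sub_neg_eq_add]
  set E' : Matrix (Fin m) (Fin m) ℤ := Matrix.of fun i j =>
    h j (((i : ℕ) + 1 : ℕ)) - h j 0 with hE'
  have hE1 : E' = (1 + Matrix.of fun _ _ => (2 : ℤ)) * EE c := by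
    ext i j
    rw [add_mul, one_mul, Matrix.add_apply, mul_apply]
    simp only [Matrix.of_apply, hE']
    rw [← mul_sum]
    have h1 : ∑ k : Fin m, EE c k j = -c ((((j : ℕ) + 1 : ℕ))) := by
      have h2 := sum_split (fun y : ZMod (2 * m + 1) => c (y - (((j : ℕ) + 1 : ℕ) : ZMod (2 * m + 1))))
      have h3 : ∑ y : ZMod (2 * m + 1), c (y - (((j : ℕ) + 1 : ℕ) : ZMod (2 * m + 1))) = 0 := by
        rw [← hs]
        exact Equiv.sum_comp (Equiv.subRight _) c
      rw [h3, zero_sub, hc] at h2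
      have h4 : ∑ k : Fin m, EE c k j = ∑ k : Fin m, (c (((k : ℕ) + 1 : ℕ) - ((j : ℕ) + 1 : ℕ)) +
          c (-((k : ℕ) + 1 : ℕ) - ((j : ℕ) + 1 : ℕ))) := by
        refine sum_congr rfl fun k _ => ?_
        unfold EE
        rw [Matrix.of_apply, ← hc (-((k : ℕ) + 1 : ℕ) - ((j : ℕ) + 1 : ℕ))]
        congr 2
        ring
      rw [h4]
      linarith
    rw [h1]
    simp only [hh, zero_sub, zero_add, hc]
    unfold EE
    rw [Matrix.of_apply]
    ring
  have hE2 : E'.det = ((2 * m + 1 : ℕ) : ℤ) * (EE c).det := by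
    rw [hE1, det_mul]
    congr 1
    have h1 : (Matrix.of fun (_ _ : Fin m) => (2 : ℤ)) =
        Matrix.replicateCol Unit (fun _ => (2 : ℤ)) * Matrix.replicateRow Unit (fun _ => (1 : ℤ)) := by
      ext i j
      simp [mul_apply]
    rw [h1, det_one_add_replicateCol_mul_replicateRow]
    simp [dotProduct]
    ring
  have hcomm : DD m * E' = OO c * DD m := by
    ext i j
    -- both sides are `h j (i+1) - h j (i-1)`
    have h1 : (DD m * E') i j = h j (((i : ℕ) + 1 : ℕ) + 1) - h j (((i : ℕ) + 1 : ℕ) - 1) := by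
      rw [mul_apply]
      simp only [DD, Matrix.of_apply, hE', sub_mul]
      rw [sum_sub_distrib]
      have e1 := even_expand (fun x => h j x - h j 0) (by simp)
        (fun x => by simp only [hheven]) (((i : ℕ) + 1 : ℕ) + 1)
      have e2 := even_expand (fun x => h j x - h j 0) (by simp)
        (fun x => by simp only [hheven]) (((i : ℕ) + 1 : ℕ) - 1)
      beta_reduce at e1 e2
      rw [← e1, ← e2]
      ring
    have h2 : (OO c * DD m) i j = h j (((i : ℕ) + 1 : ℕ) + 1) - h j (((i : ℕ) + 1 : ℕ) - 1) := by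
      rw [mul_apply]
      set d : ZMod (2 * m + 1) → ℤ := fun y => FF j (y + 1) - FF j (y - 1) with hd
      have hdodd : ∀ y, d (-y) = -d y := by
        intro y
        simp only [hd]
        rw [← FF_neg j (-y + 1), ← FF_neg j (-y - 1)]
        have e1 : -(-y + 1) = y - 1 := by ring
        have e2 : -(-y - 1) = y + 1 := by ring
        rw [e1, e2]
        ring
      have hd0 : d 0 = 0 := by
        have := hdodd 0
        rw [neg_zero] at this
        linarith
      have h3 := sum_split (fun y : ZMod (2 * m + 1) =>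
        c ((((i : ℕ) + 1 : ℕ) : ZMod (2 * m + 1)) - y) * d y)
      have h4 : ∑ k : Fin m, OO c i k * DD m k j =
          ∑ y, c ((((i : ℕ) + 1 : ℕ) : ZMod (2 * m + 1)) - y) * d y := by
        rw [h3, hd0, mul_zero, zero_add]
        refine sum_congr rfl fun k _ => ?_
        rw [hdodd, sub_neg_eq_add]
        simp only [OO, DD, Matrix.of_apply, hd]
        ring
      rw [h4]
      simp only [hd, mul_sub]
      rw [sum_sub_distrib]
      have e1 : ∑ y, c ((((i : ℕ) + 1 : ℕ) : ZMod (2 * m + 1)) - y) * FF j (y + 1) =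
          h j (((i : ℕ) + 1 : ℕ) + 1) := by
        rw [← hhsum, ← Equiv.sum_comp (Equiv.subRight (1 : ZMod (2 * m + 1)))]
        refine sum_congr rfl fun y _ => ?_
        simp only [Equiv.subRight_apply, sub_add_cancel]
        congr 2
        ring
      have e2 : ∑ y, c ((((i : ℕ) + 1 : ℕ) : ZMod (2 * m + 1)) - y) * FF j (y - 1) =
          h j (((i : ℕ) + 1 : ℕ) - 1) := by
        rw [← hhsum, ← Equiv.sum_comp (Equiv.addRight (1 : ZMod (2 * m + 1)))]
        refine sum_congr rfl fun y _ => ?_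
        simp only [Equiv.coe_addRight, add_sub_cancel_right]
        congr 2
        ring
      rw [e1, e2]
    rw [h1, h2]
  have h5 := congrArg Matrix.det hcomm
  rw [det_mul, det_mul, mul_comm] at h5
  rw [← hE2]
  exact (mul_right_cancel₀ (DD_det_ne m) h5).symm

/-- **the minor of a symmetric circulant matrix of odd order with row sum zero** -/
theorem mnr_sym (hc : ∀ i, c (-i) = c i) (hs : ∑ i, c i = 0) :
    (mnr c).det = ((2 * m + 1 : ℕ) : ℤ) * (EE c).det ^ 2 := by
  rw [mnr_split c hc, OO_eq c hc hs]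
  ring

end sym

end circ

end Pool.Agent.Q267.CD
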