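import Mathlib
import Pool.Agent.Q267.CD.Circ
import Pool.Agent.Helper848.SqDet

/-!
# Determinants `[f(j/k)]` over `j, k ≠ 0, ±1` modulo a prime `p = 2N+1`, `N` odd
-/

set_option linter.unusedSectionVars false

namespace Pool.Agent.Q267.CD

open Matrix Finset

section prime

variable {p : ℕ} [hpr : Fact p.Prime] {N : ℕ} [NeZero N] {g : ZMod p}

/-- powers of `g` indexed by `ℤ/N` -/
def pw (g : ZMod p) (i : ZMod N) : ZMod p := g ^ i.val

lemma exists_g (hp : p = 2 * N + 1) : ∃ g : ZMod p, orderOf g = 2 * N := by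
  obtain ⟨g, hg⟩ := IsCyclic.exists_generator (α := (ZMod p)ˣ)
  have h := orderOf_eq_card_of_forall_mem_zpowers hg
  rw [Nat.card_eq_fintype_card, ZMod.card_units p] at h
  refine ⟨(g : ZMod p), ?_⟩
  rw [orderOf_units, h]
  omega

lemma g_ne (hg : orderOf g = 2 * N) : g ≠ 0 := by
  rintro rfl
  have h1 : (0 : ZMod p) ^ (2 * N) = 1 := by
    rw [← hg]
    exact pow_orderOf_eq_one _
  rw [zero_pow (by have := NeZero.ne N; omega)] at h1
  exact zero_ne_one h1

lemma g_pow_N (hg : orderOf g = 2 * N) : g ^ N = -1 := by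
  have h1 : (g ^ N) ^ 2 = 1 := by
    rw [← pow_mul, mul_comm, ← hg]
    exact pow_orderOf_eq_one _
  rcases sq_eq_one_iff.1 h1 with h | h
  · exact absurd h (by
      intro h
      have h2 := orderOf_dvd_of_pow_eq_one h
      rw [hg] at h2
      have := Nat.le_of_dvd (Nat.pos_of_ne_zero (NeZero.ne N)) h2
      have := NeZero.ne N
      omega)
  · exact h

lemma pw_ne (hg : orderOf g = 2 * N) (i : ZMod N) : pw g i ≠ 0 := pow_ne_zero _ (g_ne hg)

lemma pw_zero : pw g (0 : ZMod N) = 1 := by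
  unfold pw
  rw [ZMod.val_zero, pow_zero]

lemma pw_cast (hg : orderOf g = 2 * N) (k : ℕ) :
    pw g (k : ZMod N) = g ^ k ∨ pw g (k : ZMod N) = - g ^ k := by
  unfold pw
  rw [ZMod.val_natCast]
  have h1 : g ^ k = g ^ (k % N) * (g ^ N) ^ (k / N) := by
    rw [← pow_mul, ← pow_add, Nat.mod_add_div]
  rw [h1, g_pow_N hg]
  rcases neg_one_pow_eq_or (ZMod p) (k / N) with h | h <;> rw [h] <;> simp

lemma pw_add (hg : orderOf g = 2 * N) (i j : ZMod N) :
    pw g (i + j) = pw g i * pw g j ∨ pw g (i + j) = - (pw g i * pw g j) := by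
  have h := pw_cast hg (i.val + j.val)
  rw [Nat.cast_add, ZMod.natCast_zmod_val, ZMod.natCast_zmod_val, pow_add] at h
  exact h

lemma even_pw_add (hg : orderOf g = 2 * N) {r : ZMod p → ℤ} (hr : ∀ x, r (-x) = r x)
    (i j : ZMod N) : r (pw g (i + j)) = r (pw g i * pw g j) := by
  rcases pw_add hg i j with h | h
  · rw [h]
  · rw [h, hr]

lemma even_pw_sub (hg : orderOf g = 2 * N) {r : ZMod p → ℤ} (hr : ∀ x, r (-x) = r x)
    (i j : ZMod N) : r (pw g (i - j)) = r (pw g i / pw g j) := by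
  have hj := pw_ne hg j
  rcases pw_add hg (i - j) j with h | h
  · rw [sub_add_cancel] at h
    rw [h, mul_div_assoc, div_self hj, mul_one]
  · rw [sub_add_cancel] at h
    rw [h, neg_div, mul_div_assoc, div_self hj, mul_one, hr]

/-- all nonzero classes are `± pw` -/
def full (g : ZMod p) : ZMod N ⊕ ZMod N → ZMod p
  | Sum.inl i => pw g i
  | Sum.inr i => - pw g i

lemma full_ne (hg : orderOf g = 2 * N) (x : ZMod N ⊕ ZMod N) : full g x ≠ 0 := by
  rcases x with i | i
  · exact pw_ne hg i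
  · exact neg_ne_zero.2 (pw_ne hg i)

lemma full_inj (hg : orderOf g = 2 * N) :
    Function.Injective (full g : ZMod N ⊕ ZMod N → ZMod p) := by
  have hinj : ∀ a b : ℕ, a < 2 * N → b < 2 * N → g ^ a = g ^ b → a = b := by
    intro a b ha hb h
    refine pow_injOn_Iio_orderOf ?_ ?_ h
    · rw [Set.mem_Iio, hg]; exact ha
    · rw [Set.mem_Iio, hg]; exact hb
  have hll : ∀ i j : ZMod N, pw g i = pw g j → i = j := by
    intro i j h
    have h1 := ZMod.val_lt i
    have h2 := ZMod.val_lt j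
    exact ZMod.val_injective N (hinj _ _ (by omega) (by omega) h)
  have hlr : ∀ i j : ZMod N, pw g i ≠ - pw g j := by
    intro i j h
    have h1 := ZMod.val_lt i
    have h2 := ZMod.val_lt j
    have h3 : g ^ i.val = g ^ (j.val + N) := by
      rw [pow_add, g_pow_N hg]
      unfold pw at h
      rw [h]
      ring
    have := hinj _ _ (by omega) (by omega) h3
    omega
  rintro (i | i) (j | j) h
  · rw [hll i j h]
  · exact absurd h (hlr i j)
  · exact absurd h.symm (hlr j i)
  · rw [hll i j (neg_injective h)]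

/-- the bijection of `ℤ/N ⊕ ℤ/N` with the nonzero classes -/
noncomputable def fullE (hp : p = 2 * N + 1) (hg : orderOf g = 2 * N) :
    ZMod N ⊕ ZMod N ≃ {x : ZMod p // x ≠ 0} :=
  Equiv.ofBijective (fun x => ⟨full g x, full_ne hg x⟩) <| by
    rw [Fintype.bijective_iff_injective_and_card]
    refine ⟨fun x y h => full_inj hg (congrArg Subtype.val h), ?_⟩
    rw [Fintype.card_sum, Fintype.card_subtype_compl, Fintype.card_subtype_eq, ZMod.card, ZMod.card]
    omega

lemma exists_pw (hp : p = 2 * N + 1) (hg : orderOf g = 2 * N) {x : ZMod p} (hx : x ≠ 0) :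
    ∃ i : ZMod N, pw g i = x ∨ pw g i = - x := by
  obtain ⟨y, hy⟩ := (fullE hp hg).surjective ⟨x, hx⟩
  have hy' : full g y = x := congrArg Subtype.val hy
  rcases y with i | i
  · exact ⟨i, Or.inl hy'⟩
  · refine ⟨i, Or.inr ?_⟩
    rw [← hy']
    show pw g i = - - pw g i
    rw [neg_neg]

lemma sum_pw (hp : p = 2 * N + 1) (hg : orderOf g = 2 * N) {r : ZMod p → ℤ}
    (hr : ∀ x, r (-x) = r x) (h0 : r 0 = 0) :
    2 * ∑ i : ZMod N, r (pw g i) = ∑ x, r x := by
  have h1 : ∑ x : ZMod p, r x = ∑ x : {x : ZMod p // x ≠ 0}, r x := by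
    rw [← Finset.add_sum_erase univ r (mem_univ 0), h0, zero_add, ← Finset.sum_subtype]
    intro x
    simp
  rw [h1, ← Equiv.sum_comp (fullE hp hg), Fintype.sum_sum_type]
  have h2 : ∀ i : ZMod N, r ((fullE hp hg (Sum.inl i) : {x : ZMod p // x ≠ 0}) : ZMod p) =
      r (pw g i) := fun i => rfl
  have h3 : ∀ i : ZMod N, r ((fullE hp hg (Sum.inr i) : {x : ZMod p // x ≠ 0}) : ZMod p) =
      r (pw g i) := fun i => by
    rw [← hr (pw g i)]
    rfl
  simp only [h2, h3]
  ring

lemma full_one (hg : orderOf g = 2 * N) (x : {i : ZMod N // ¬ i = 0} ⊕ {i : ZMod N // ¬ i = 0}) :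
    full g (Sum.map Subtype.val Subtype.val x) ≠ 1 ∧
      full g (Sum.map Subtype.val Subtype.val x) ≠ -1 := by
  have e1 : (1 : ZMod p) = full g (Sum.inl (0 : ZMod N)) := pw_zero.symm
  have e2 : (-1 : ZMod p) = full g (Sum.inr (0 : ZMod N)) := by
    show (-1 : ZMod p) = - pw g (0 : ZMod N)
    rw [pw_zero]
  constructor
  · intro h
    rw [e1] at h
    have h1 := full_inj hg h
    rcases x with i | i
    · exact i.2 (Sum.inl_injective h1)
    · simp at h1
  · intro h
    rw [e2] at h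
    have h1 := full_inj hg h
    rcases x with i | i
    · simp at h1
    · exact i.2 (Sum.inr_injective h1)

/-- the bijection of two copies of `ℤ/N ∖ 0` with `{2, …, p-2}` -/
noncomputable def ioo (hp : p = 2 * N + 1) (hg : orderOf g = 2 * N) :
    {i : ZMod N // ¬ i = 0} ⊕ {i : ZMod N // ¬ i = 0} ≃ Finset.Ioo 1 (p - 1) :=
  Equiv.ofBijective (fun x => ⟨(full g (Sum.map Subtype.val Subtype.val x)).val, by
    have h0 := full_ne hg (Sum.map Subtype.val Subtype.val x)
    have h1 := full_one hg x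
    set y := full g (Sum.map Subtype.val Subtype.val x) with hy
    have hlt := ZMod.val_lt y
    have a0 : y.val ≠ 0 := fun h => h0 ((ZMod.val_eq_zero y).1 h)
    have a1 : y.val ≠ 1 := by
      intro h
      apply h1.1
      rw [← ZMod.natCast_zmod_val y, h, Nat.cast_one]
    have a2 : y.val ≠ p - 1 := by
      intro h
      apply h1.2
      rw [← ZMod.natCast_zmod_val y, h, Nat.cast_sub (by omega), Nat.cast_one,
        ZMod.natCast_self, zero_sub]
    rw [Finset.mem_Ioo]
    omega⟩) <| by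
    rw [Fintype.bijective_iff_injective_and_card]
    refine ⟨fun x y h => ?_, ?_⟩
    · have h1 := ZMod.val_injective p (congrArg Subtype.val h)
      exact (Sum.map_injective.2 ⟨Subtype.val_injective, Subtype.val_injective⟩) (full_inj hg h1)
    · rw [Fintype.card_sum, Fintype.card_subtype_compl, Fintype.card_subtype_eq, ZMod.card,
        Fintype.card_coe, Nat.card_Ioo]
      omega

lemma ioo_cast (hp : p = 2 * N + 1) (hg : orderOf g = 2 * N)
    (x : {i : ZMod N // ¬ i = 0} ⊕ {i : ZMod N // ¬ i = 0}) :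
    (((ioo hp hg x : Finset.Ioo 1 (p - 1)) : ℕ) : ZMod p) =
      full g (Sum.map Subtype.val Subtype.val x) := ZMod.natCast_zmod_val _

/-- **reduction to two circulant minors** -/
theorem det_ioo (hp : p = 2 * N + 1) (hg : orderOf g = 2 * N) (f χ : ZMod p → ℤ)
    (hmul : ∀ x y, χ (x * y) = χ x * χ y) (hneg : χ (-1) = -1) (hsq : ∀ x, x ≠ 0 → χ x * χ x = 1) :
    (Matrix.of fun j k : Finset.Ioo 1 (p - 1) => f (((j : ℕ) : ZMod p) / ((k : ℕ) : ZMod p))).det =
      (mnr fun i : ZMod N => f (pw g i) + f (-pw g i)).det *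
      (mnr fun i : ZMod N => χ (pw g i) * (f (pw g i) - f (-pw g i))).det := by
  rw [← det_submatrix_equiv_self (ioo hp hg)]
  have hdiv : ∀ x y, y ≠ 0 → χ (x / y) = χ x * χ y := by
    intro x y hy
    have h1 : χ x = χ (x / y) * χ y := by rw [← hmul, div_mul_cancel₀ _ hy]
    rw [h1, mul_assoc, hsq y hy, mul_one]
  have hchineg : ∀ x, χ (-x) = - χ x := by
    intro x
    rw [← neg_one_mul, hmul, hneg]
    ring
  set A : Matrix {i : ZMod N // ¬ i = 0} {i : ZMod N // ¬ i = 0} ℤ :=
    Matrix.of fun i j => f (pw g i.1 / pw g j.1) with hA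
  set B : Matrix {i : ZMod N // ¬ i = 0} {i : ZMod N // ¬ i = 0} ℤ :=
    Matrix.of fun i j => f (-(pw g i.1 / pw g j.1)) with hB
  have hblk : ((Matrix.of fun j k : Finset.Ioo 1 (p - 1) =>
      f (((j : ℕ) : ZMod p) / ((k : ℕ) : ZMod p))).submatrix (ioo hp hg) (ioo hp hg)) =
      fromBlocks A B B A := by
    ext x y
    rw [submatrix_apply, Matrix.of_apply, ioo_cast, ioo_cast]
    rcases x with i | i <;> rcases y with j | j
    · rfl
    · show f (pw g i.1 / (- pw g j.1)) = f (-(pw g i.1 / pw g j.1))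
      rw [div_neg]
    · show f ((- pw g i.1) / (pw g j.1)) = f (-(pw g i.1 / pw g j.1))
      rw [neg_div]
    · show f ((- pw g i.1) / (- pw g j.1)) = f (pw g i.1 / pw g j.1)
      rw [neg_div_neg_eq]
  rw [hblk, det_AB]
  congr 1
  · congr 1
    ext i j
    have hr : ∀ x, (fun t => f t + f (-t)) (-x) = (fun t => f t + f (-t)) x := by
      intro x
      simp only [neg_neg]
      ring
    have h1 := even_pw_sub hg (r := fun t => f t + f (-t)) hr i.1 j.1
    exact h1.symm
  · have hr : ∀ x, (fun t => χ t * (f t - f (-t))) (-x) = (fun t => χ t * (f t - f (-t))) x := by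
      intro x
      simp only [neg_neg, hchineg]
      ring
    have hdet : A - B = (Matrix.diagonal fun i : {i : ZMod N // ¬ i = 0} => χ (pw g i.1)) *
        (mnr fun i : ZMod N => χ (pw g i) * (f (pw g i) - f (-pw g i))) *
        (Matrix.diagonal fun i : {i : ZMod N // ¬ i = 0} => χ (pw g i.1)) := by
      ext i j
      rw [mul_diagonal, diagonal_mul]
      have h1 := even_pw_sub hg (r := fun t => χ t * (f t - f (-t))) hr i.1 j.1
      have h2 := hsq _ (pw_ne hg i.1)
      have h3 := hsq _ (pw_ne hg j.1)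
      have h5 : (mnr fun i : ZMod N => χ (pw g i) * (f (pw g i) - f (-pw g i))) i j =
          χ (pw g i.1 / pw g j.1) * (f (pw g i.1 / pw g j.1) - f (-(pw g i.1 / pw g j.1))) := h1
      rw [h5, hdiv _ _ (pw_ne hg _)]
      show f (pw g i.1 / pw g j.1) - f (-(pw g i.1 / pw g j.1)) = _
      linear_combination (-(f (pw g i.1 / pw g j.1) - f (-(pw g i.1 / pw g j.1))) * (χ (pw g j.1) * χ (pw g j.1))) * h2 - (f (pw g i.1 / pw g j.1) - f (-(pw g i.1 / pw g j.1))) * h3
    rw [hdet, det_mul, det_mul, det_diagonal]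
    have h4 : (∏ i : {i : ZMod N // ¬ i = 0}, χ (pw g i.1)) *
        (∏ i : {i : ZMod N // ¬ i = 0}, χ (pw g i.1)) = 1 := by
      rw [← prod_mul_distrib]
      exact prod_eq_one fun i _ => hsq _ (pw_ne hg _)
    linear_combination ((mnr fun i : ZMod N => χ (pw g i) * (f (pw g i) - f (-pw g i))).det) * h4

end prime

end Pool.Agent.Q267.CD
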