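import Mathlib
import Pool.Agent.Q267.CD.Prime

/-!
# The determinants `{3,2}_n`
-/

set_option linter.unusedSectionVars false

namespace Pool.Agent.Q267.CD

open Matrix Finset

section main

variable {p : ℕ} [hpr : Fact p.Prime]

lemma chi_neg_one (h : p % 4 = 3) : quadraticChar (ZMod p) (-1) = -1 := by
  rw [quadraticChar_neg_one_iff_not_isSquare, ZMod.exists_sq_eq_neg_one_iff]
  simpa using h

lemma chi_two (h : p % 8 = 3) : quadraticChar (ZMod p) 2 = -1 := by
  rw [quadraticChar_neg_one_iff_not_isSquare, ZMod.exists_sq_eq_two_iff (by omega)]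
  omega

/-- `f(t) = χ((t+1)(t+2))` -/
noncomputable def fs (p : ℕ) [Fact p.Prime] (t : ZMod p) : ℤ :=
  quadraticChar (ZMod p) ((t + 1) * (t + 2))

lemma chi_mul (x y : ZMod p) : quadraticChar (ZMod p) (x * y) =
    quadraticChar (ZMod p) x * quadraticChar (ZMod p) y := map_mul _ _ _

lemma chi_sq {x : ZMod p} (hx : x ≠ 0) :
    quadraticChar (ZMod p) x * quadraticChar (ZMod p) x = 1 := by
  rw [← chi_mul, ← pow_two]
  exact quadraticChar_sq_one' hx

lemma fs_two (h : p % 8 = 3) {t : ZMod p} (ht : t ≠ 0) : fs p (2 / t) = - fs p t := by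
  unfold fs
  have h1 : (2 / t + 1) * (2 / t + 2) * (t * t) = 2 * ((t + 1) * (t + 2)) := by
    field_simp
    ring
  have h2 := congrArg (quadraticChar (ZMod p)) h1
  rw [chi_mul, chi_mul t t, chi_sq ht, mul_one, chi_mul 2, chi_two h] at h2
  rw [h2]
  ring

lemma sum_cubic (h : p % 4 = 3) (c : ZMod p) : ∑ x : ZMod p,
    quadraticChar (ZMod p) ((c + x) * (c + 2 * x) * x) = 0 := by
  have h1 : ∑ x : ZMod p, quadraticChar (ZMod p) ((c + x) * (c + 2 * x) * x) =
      - ∑ x : ZMod p, quadraticChar (ZMod p) ((c + x) * (c + 2 * x) * x) := by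
    conv_lhs => rw [← Equiv.sum_comp (Equiv.subLeft (-c))]
    rw [← sum_neg_distrib]
    refine sum_congr rfl fun x _ => ?_
    rw [Equiv.subLeft_apply]
    have h2 : (c + (-c - x)) * (c + 2 * (-c - x)) * (-c - x) =
        (-1) * ((c + x) * (c + 2 * x) * x) := by ring
    rw [h2, chi_mul, chi_neg_one h]
    ring
  omega

lemma even_shift {N : ℕ} [NeZero N] {g : ZMod p} (hg : orderOf g = 2 * N)
    {r : ZMod p → ℤ} (hr : ∀ x, r (-x) = r x) (ε : ℤ)
    (hr2 : ∀ t, t ≠ 0 → r (2 / t) = ε * r t) (e : ZMod N) (he : pw g e * pw g e = -2) (i : ZMod N) :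
    r (pw g (-i + e)) = ε * r (pw g (i + e)) := by
  have h1 : -i + e = e - i := by ring
  have hi := pw_ne hg i
  have hE := pw_ne hg e
  rw [h1, even_pw_sub hg hr, even_pw_add hg hr, ← hr2 _ (mul_ne_zero hi hE), ← hr]
  congr 1
  field_simp
  linear_combination (-1) * he

/-- **the prime case** -/
theorem det_prime (h8 : p % 8 = 3) : ∃ x : ℤ,
    (Matrix.of fun j k : Finset.Ioo 1 (p - 1) =>
      fs p (((j : ℕ) : ZMod p) / ((k : ℕ) : ZMod p))).det = (((p - 1) / 2 : ℕ) : ℤ) * x ^ 2 := by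
  obtain ⟨m, hm⟩ : ∃ m, p = 2 * (2 * m + 1) + 1 := ⟨(p - 3) / 4, by omega⟩
  obtain ⟨g, hg⟩ := exists_g hm
  have hneg := chi_neg_one (p := p) (by omega)
  rw [det_ioo hm hg (fs p) (fun x => quadraticChar (ZMod p) x) chi_mul hneg
    (fun x hx => chi_sq hx)]
  -- the shift
  obtain ⟨c, hc⟩ : IsSquare (-2 : ZMod p) := by
    rw [ZMod.exists_sq_eq_neg_two_iff (by omega)]
    omega
  have hc0 : c ≠ 0 := by
    rintro rfl
    rw [mul_zero, neg_eq_zero] at hc
    have h2 := chi_two h8
    rw [hc, MulChar.map_zero] at h2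
    omega
  obtain ⟨e, he⟩ := exists_pw hm hg hc0
  have he2 : pw g e * pw g e = -2 := by
    rcases he with h | h
    · rw [h, hc]
    · rw [h, hc]
      ring
  have hchineg : ∀ x : ZMod p, quadraticChar (ZMod p) (-x) = - quadraticChar (ZMod p) x := by
    intro x
    rw [← neg_one_mul, chi_mul, hneg]
    ring
  set rp : ZMod p → ℤ := fun t => fs p t + fs p (-t) with hrp
  set rm : ZMod p → ℤ := fun t => quadraticChar (ZMod p) t * (fs p t - fs p (-t)) with hrm
  have hrpe : ∀ x, rp (-x) = rp x := by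
    intro x
    simp only [hrp, neg_neg]
    ring
  have hrme : ∀ x, rm (-x) = rm x := by
    intro x
    simp only [hrm, neg_neg, hchineg]
    ring
  have hrp2 : ∀ t, t ≠ 0 → rp (2 / t) = (-1) * rp t := by
    intro t ht
    have h1 := fs_two h8 (neg_ne_zero.2 ht)
    rw [div_neg] at h1
    simp only [hrp]
    rw [fs_two h8 ht, h1]
    ring
  have hrm2 : ∀ t, t ≠ 0 → rm (2 / t) = 1 * rm t := by
    intro t ht
    have h1 := fs_two h8 (neg_ne_zero.2 ht)
    rw [div_neg] at h1
    have h2 : quadraticChar (ZMod p) (2 / t) = - quadraticChar (ZMod p) t := by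
      have h3 : (2 / t) * (t * t) = 2 * t := by
        field_simp
      have h4 := congrArg (quadraticChar (ZMod p)) h3
      rw [chi_mul, chi_mul t t, chi_sq ht, mul_one, chi_mul 2, chi_two h8] at h4
      rw [h4]
      ring
    simp only [hrm]
    rw [fs_two h8 ht, h1, h2]
    ring
  have hN : Odd (2 * m + 1) := ⟨m, rfl⟩
  -- the first factor
  have hsump : ∑ i : ZMod (2 * m + 1), rp (pw g i) = 0 := by
    have h1 : ∑ i : ZMod (2 * m + 1), rp (pw g i) = ∑ i : ZMod (2 * m + 1), rp (pw g (i + e)) :=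
      (Equiv.sum_comp (Equiv.addRight e) (fun i => rp (pw g i))).symm
    have h2 : ∑ i : ZMod (2 * m + 1), rp (pw g (i + e)) =
        ∑ i : ZMod (2 * m + 1), rp (pw g (-i + e)) :=
      (Equiv.sum_comp (Equiv.neg _) (fun i => rp (pw g (i + e)))).symm
    have h3 : ∑ i : ZMod (2 * m + 1), rp (pw g (-i + e)) =
        - ∑ i : ZMod (2 * m + 1), rp (pw g (i + e)) := by
      rw [← sum_neg_distrib]
      refine sum_congr rfl fun i _ => ?_
      rw [even_shift hg hrpe (-1) hrp2 e he2 i]
      ring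
    omega
  have hsq : IsSquare (mnr fun i : ZMod (2 * m + 1) => rp (pw g i)).det := by
    rw [mnr_shift hN _ hsump e]
    refine Pool.Agent.Helper848.SqDet.isSquare_int _ 0 ?_
    intro i j
    have h1 := even_shift hg hrpe (-1) hrp2 e he2 (i.1 - j.1)
    rw [neg_sub] at h1
    have h2 : (mnr fun i : ZMod (2 * m + 1) => rp (pw g (i + e))) i j =
      rp (pw g (i.1 - j.1 + e)) := rfl
    have h3 : (mnr fun i : ZMod (2 * m + 1) => rp (pw g (i + e))) j i =
      rp (pw g (j.1 - i.1 + e)) := rfl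
    rw [h2, h3, h1]
    simp
  -- the second factor
  have hsumm : ∑ i : ZMod (2 * m + 1), rm (pw g i) = 0 := by
    have h1 := sum_pw hm hg hrme (by simp [hrm])
    have h2 : ∑ x, rm x = 2 * ∑ x, quadraticChar (ZMod p) ((2 + x) * (2 + 2 * x) * x) *
        quadraticChar (ZMod p) 2 := by
      have h3 : ∑ x, rm x = ∑ x, quadraticChar (ZMod p) x * fs p x +
          ∑ x, quadraticChar (ZMod p) (-x) * fs p (-x) := by
        rw [← sum_add_distrib]
        refine sum_congr rfl fun x _ => ?_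
        simp only [hrm, hchineg]
        ring
      have h4 : ∑ x, quadraticChar (ZMod p) (-x) * fs p (-x) =
          ∑ x, quadraticChar (ZMod p) x * fs p x :=
        Equiv.sum_comp (Equiv.neg (ZMod p)) (fun x => quadraticChar (ZMod p) x * fs p x)
      rw [h3, h4, ← two_mul]
      congr 1
      refine sum_congr rfl fun x _ => ?_
      have h20 : (2 : ZMod p) ≠ 0 := by
        intro h
        have h2 := chi_two h8
        rw [h, MulChar.map_zero] at h2
        omega
      unfold fs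
      rw [← chi_mul, ← chi_mul]
      have h5 : (2 + x) * (2 + 2 * x) * x * 2 = (x * ((x + 1) * (x + 2))) * (2 * 2) := by ring
      rw [h5, chi_mul (x * _), chi_mul 2 2, chi_sq h20, mul_one]
    rw [h2, ← sum_mul, sum_cubic (by omega), zero_mul, mul_zero] at h1
    omega
  have hm2 : (mnr fun i : ZMod (2 * m + 1) => rm (pw g i)).det = ((2 * m + 1 : ℕ) : ℤ) *
      (EE fun i : ZMod (2 * m + 1) => rm (pw g (i + e))).det ^ 2 := by
    rw [mnr_shift hN _ hsumm e]
    refine mnr_sym _ ?_ ?_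
    · intro i
      rw [even_shift hg hrme 1 hrm2 e he2 i, one_mul]
    · rw [← hsumm]
      exact Equiv.sum_comp (Equiv.addRight e) (fun i => rm (pw g i))
  obtain ⟨s, hs⟩ := hsq
  have hfin : ∃ x : ℤ, (mnr fun i : ZMod (2 * m + 1) => rp (pw g i)).det *
      (mnr fun i : ZMod (2 * m + 1) => rm (pw g i)).det = (((p - 1) / 2 : ℕ) : ℤ) * x ^ 2 := by
    refine ⟨s * (EE fun i : ZMod (2 * m + 1) => rm (pw g (i + e))).det, ?_⟩
    rw [hs, hm2]
    have h1 : (p - 1) / 2 = 2 * m + 1 := by omega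
    rw [h1]
    ring
  exact hfin

end main

end Pool.Agent.Q267.CD
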