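import Mathlib
import Pool.Agent.Q267.CD.Main

/-!
# The determinants `{3,2}_n`, composite `n`
-/

set_option linter.unusedSectionVars false

namespace Pool.Agent.Q267.CD

open Matrix Finset

/-- the matrix of `{3,2}_n` -/
def MM (n : ℕ) : Matrix (Finset.Ioo 1 (n - 1)) (Finset.Ioo 1 (n - 1)) ℤ :=
  Matrix.of fun j k => jacobiSym (((j : ℕ) : ℤ) ^ 2 + 3 * ((j : ℕ) : ℤ) * ((k : ℕ) : ℤ) +
    2 * ((k : ℕ) : ℤ) ^ 2) n

lemma MM_prime {p : ℕ} [hpr : Fact p.Prime] : MM p =
    Matrix.of fun j k : Finset.Ioo 1 (p - 1) =>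
      fs p (((j : ℕ) : ZMod p) / ((k : ℕ) : ZMod p)) := by
  ext j k
  unfold MM fs
  rw [Matrix.of_apply, Matrix.of_apply, ← jacobiSym.legendreSym.to_jacobiSym, legendreSym]
  have hk : (((k : ℕ) : ZMod p)) ≠ 0 := by
    intro h
    rw [ZMod.natCast_eq_zero_iff] at h
    have h1 := Finset.mem_Ioo.1 k.2
    have := Nat.le_of_dvd (by omega) h
    omega
  have h1 : ((((j : ℕ) : ℤ) ^ 2 + 3 * ((j : ℕ) : ℤ) * ((k : ℕ) : ℤ) +
    2 * ((k : ℕ) : ℤ) ^ 2 : ℤ) : ZMod p) = ((((j : ℕ) : ZMod p) / ((k : ℕ) : ZMod p) + 1) *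
      (((j : ℕ) : ZMod p) / ((k : ℕ) : ZMod p) + 2)) * (((k : ℕ) : ZMod p) * ((k : ℕ) : ZMod p)) := by
    push_cast
    field_simp
    ring
  rw [h1, chi_mul _ (_ * _), chi_mul (k : ZMod p) (k : ZMod p), chi_sq hk, mul_one]

/-- two equal columns when `n` is not squarefree -/
lemma MM_sq {n p q : ℕ} (hn : n = p * q) (hp : 3 ≤ p) (hq : 3 ≤ q) (hpq : p ∣ q) :
    (MM n).det = 0 := by
  have hnq : 3 * q ≤ n := by
    rw [hn]
    exact Nat.mul_le_mul_right q hp
  have m1 : 2 ∈ Finset.Ioo 1 (n - 1) := by rw [Finset.mem_Ioo]; omega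
  have m2 : 2 + q ∈ Finset.Ioo 1 (n - 1) := by rw [Finset.mem_Ioo]; omega
  refine det_zero_of_column_eq (i := (⟨2, m1⟩ : Finset.Ioo 1 (n - 1))) (j := ⟨2 + q, m2⟩) ?_ ?_
  · intro h
    have := congrArg Subtype.val h
    simp at this
    omega
  · intro j
    unfold MM
    simp only [Matrix.of_apply]
    have hJ : ∀ a b : ℤ, ((q : ℕ) : ℤ) ∣ a - b → jacobiSym a n = jacobiSym b n := by
      intro a b hab
      have : NeZero p := ⟨by omega⟩
      have : NeZero q := ⟨by omega⟩
      rw [hn, jacobiSym.mul_right, jacobiSym.mul_right]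
      have e1 : a % (q : ℕ) = b % (q : ℕ) := Int.emod_eq_emod_iff_emod_sub_eq_zero.2
          (Int.emod_eq_zero_of_dvd hab)
      have e2 : a % (p : ℕ) = b % (p : ℕ) := Int.emod_eq_emod_iff_emod_sub_eq_zero.2
          (Int.emod_eq_zero_of_dvd (dvd_trans (Int.natCast_dvd_natCast.2 hpq) hab))
      rw [jacobiSym.mod_left' e1, jacobiSym.mod_left' e2]
    apply hJ
    refine ⟨-(3 * ((j : ℕ) : ℤ) + 8 + 2 * q), ?_⟩
    push_cast
    ring

/-- a prime factor `≡ 3 mod 4` -/
lemma exists_three (n : ℕ) (hn : n % 4 = 3) : ∃ p, p.Prime ∧ p ∣ n ∧ p % 4 = 3 := by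
  induction n using Nat.strong_induction_on with
  | _ n ih =>
    have h1 : n ≠ 1 := by omega
    have hp := Nat.minFac_prime h1
    have hd := Nat.minFac_dvd n
    by_cases h3 : n.minFac % 4 = 3
    · exact ⟨_, hp, hd, h3⟩
    · obtain ⟨q, hq⟩ := hd
      have hodd : n.minFac % 2 = 1 := by
        rcases hp.eq_two_or_odd with h | h
        · rw [h] at hq
          omega
        · exact h
      have h2 : n.minFac % 4 = 1 := by omega
      have h4 : q % 4 = 3 := by
        have h5 := congrArg (· % 4) hq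
        simp only [Nat.mul_mod, h2, one_mul, Nat.mod_mod, hn] at h5
        exact h5.symm
      have hlt : q < n := by
        have := hp.two_le
        have h0 : 0 < q := by omega
        calc q < 2 * q := by omega
          _ ≤ n.minFac * q := Nat.mul_le_mul_right q this
          _ = n := hq.symm
      obtain ⟨p, h6, h7, h8⟩ := ih q hlt h4
      exact ⟨p, h6, hq ▸ Dvd.dvd.mul_left h7 _, h8⟩

lemma sum_range_zmod {p : ℕ} [NeZero p] (G : ZMod p → ℤ) :
    ∑ x ∈ range p, G (x : ZMod p) = ∑ y : ZMod p, G y := by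
  refine Finset.sum_nbij' (fun x : ℕ => (x : ZMod p)) (fun y => y.val) ?_ ?_ ?_ ?_ ?_
  · intro x _
    exact mem_univ _
  · intro y _
    exact mem_range.2 (ZMod.val_lt y)
  · intro x hx
    exact ZMod.val_cast_of_lt (mem_range.1 hx)
  · intro y _
    exact ZMod.natCast_zmod_val y
  · intro x _
    rfl

lemma MM_coprime {n p q : ℕ} [hpr : Fact p.Prime] (hn : n = p * q) (hp : p % 4 = 3) (hq : 5 ≤ q)
    (hpq : Nat.Coprime q p) : (MM n).det = 0 := by
  have hp3 : 3 ≤ p := by omega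
  have hnq : 3 * q ≤ n := by
    rw [hn]
    exact Nat.mul_le_mul_right q hp3
  have h20 : (2 : ZMod p) ≠ 0 := by
    intro h
    have h1 : ((2 : ℕ) : ZMod p) = 0 := by exact_mod_cast h
    rw [ZMod.natCast_eq_zero_iff] at h1
    have := Nat.le_of_dvd (by norm_num) h1
    omega
  have hq0 : ((q : ℕ) : ZMod p) ≠ 0 := by
    intro h
    rw [ZMod.natCast_eq_zero_iff] at h
    have h1 : p ∣ Nat.gcd q p := Nat.dvd_gcd h (dvd_refl _)
    rw [hpq] at h1
    have := Nat.le_of_dvd (by norm_num) h1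
    omega
  set w : Finset.Ioo 1 (n - 1) → ℤ := fun k =>
    if (k : ℕ) % q = 2 then quadraticChar (ZMod p) ((k : ℕ) : ZMod p) else 0 with hw
  rw [← Matrix.exists_mulVec_eq_zero_iff]
  refine ⟨w, ?_, ?_⟩
  · intro h
    have m1 : 2 ∈ Finset.Ioo 1 (n - 1) := by rw [Finset.mem_Ioo]; omega
    have h1 := congrFun h ⟨2, m1⟩
    simp only [hw, Pi.zero_apply] at h1
    rw [if_pos (Nat.mod_eq_of_lt (by omega))] at h1
    have h2 := chi_sq h20
    rw [Nat.cast_ofNat] at h1
    rw [h1] at h2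
    omega
  · funext j
    rw [Pi.zero_apply]
    simp only [mulVec, dotProduct, MM, Matrix.of_apply, hw]
    set J : ℤ := ((j : ℕ) : ℤ) with hJ
    -- as a sum over naturals
    have h1 : ∑ k : Finset.Ioo 1 (n - 1), jacobiSym (J ^ 2 + 3 * J * ((k : ℕ) : ℤ) +
        2 * ((k : ℕ) : ℤ) ^ 2) n *
        (if (k : ℕ) % q = 2 then quadraticChar (ZMod p) ((k : ℕ) : ZMod p) else 0) =
        ∑ k ∈ (Finset.Ioo 1 (n - 1)).filter (fun k => k % q = 2),
          jacobiSym (J ^ 2 + 3 * J * (k : ℤ) + 2 * (k : ℤ) ^ 2) n *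
            quadraticChar (ZMod p) (k : ZMod p) := by
      rw [sum_filter, ← Finset.sum_coe_sort (Finset.Ioo 1 (n - 1))]
      refine sum_congr rfl fun k _ => ?_
      split_ifs
      · rfl
      · rw [mul_zero]
    rw [h1]
    have h2 : ∑ k ∈ (Finset.Ioo 1 (n - 1)).filter (fun k => k % q = 2),
          jacobiSym (J ^ 2 + 3 * J * (k : ℤ) + 2 * (k : ℤ) ^ 2) n *
            quadraticChar (ZMod p) (k : ZMod p) =
        ∑ x ∈ range p, jacobiSym (J ^ 2 + 3 * J * ((2 + q * x : ℕ) : ℤ) +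
          2 * ((2 + q * x : ℕ) : ℤ) ^ 2) n * quadraticChar (ZMod p) ((2 + q * x : ℕ) : ZMod p) := by
      refine Finset.sum_nbij' (fun k => k / q) (fun x => 2 + q * x) ?_ ?_ ?_ ?_ ?_
      · intro k hk
        rw [mem_filter, Finset.mem_Ioo] at hk
        rw [mem_range]
        exact Nat.div_lt_of_lt_mul (by rw [mul_comm, ← hn]; omega)
      · intro x hx
        rw [mem_range] at hx
        rw [mem_filter, Finset.mem_Ioo]
        refine ⟨⟨by omega, ?_⟩, ?_⟩
        · have : q * (x + 1) ≤ p * q := by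
            rw [mul_comm p q]
            exact Nat.mul_le_mul_left q hx
          rw [← hn] at this
          rw [mul_add, mul_one] at this
          omega
        · rw [Nat.add_mul_mod_self_left]
          exact Nat.mod_eq_of_lt (by omega)
      · intro k hk
        rw [mem_filter] at hk
        have := Nat.mod_add_div k q
        rw [hk.2] at this
        exact this
      · intro x _
        rw [Nat.add_mul_div_left _ _ (by omega), Nat.div_eq_of_lt (by omega), zero_add]
      · intro k hk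
        rw [mem_filter] at hk
        have := Nat.mod_add_div k q
        rw [hk.2] at this
        rw [this]
    rw [h2]
    have : NeZero p := ⟨by omega⟩
    have : NeZero q := ⟨by omega⟩
    have h3 : ∀ x : ℕ, jacobiSym (J ^ 2 + 3 * J * ((2 + q * x : ℕ) : ℤ) +
          2 * ((2 + q * x : ℕ) : ℤ) ^ 2) n * quadraticChar (ZMod p) ((2 + q * x : ℕ) : ZMod p) =
        jacobiSym (J ^ 2 + 3 * J * 2 + 2 * 2 ^ 2) q *
          quadraticChar (ZMod p) (((J : ZMod p) + (2 + (q : ZMod p) * (x : ZMod p))) *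
            ((J : ZMod p) + 2 * (2 + (q : ZMod p) * (x : ZMod p))) *
            (2 + (q : ZMod p) * (x : ZMod p))) := by
      intro x
      rw [hn, jacobiSym.mul_right, ← jacobiSym.legendreSym.to_jacobiSym, legendreSym, chi_mul _ (2 + _)]
      have e1 : (((J ^ 2 + 3 * J * ((2 + q * x : ℕ) : ℤ) +
          2 * ((2 + q * x : ℕ) : ℤ) ^ 2 : ℤ)) : ZMod p) =
          ((J : ZMod p) + (2 + (q : ZMod p) * (x : ZMod p))) *
            ((J : ZMod p) + 2 * (2 + (q : ZMod p) * (x : ZMod p))) := by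
        push_cast
        ring
      have e2 : (J ^ 2 + 3 * J * ((2 + q * x : ℕ) : ℤ) +
          2 * ((2 + q * x : ℕ) : ℤ) ^ 2 : ℤ) % (q : ℕ) =
          (J ^ 2 + 3 * J * 2 + 2 * 2 ^ 2) % (q : ℕ) := by
        refine Int.emod_eq_emod_iff_emod_sub_eq_zero.2 (Int.emod_eq_zero_of_dvd ?_)
        refine ⟨3 * J * x + 8 * x + 2 * q * x ^ 2, ?_⟩
        push_cast
        ring
      rw [e1, jacobiSym.mod_left' e2]
      push_cast
      ring
    rw [sum_congr rfl fun x _ => h3 x, ← mul_sum,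
      sum_range_zmod (fun x : ZMod p => quadraticChar (ZMod p)
        (((J : ZMod p) + (2 + (q : ZMod p) * x)) *
            ((J : ZMod p) + 2 * (2 + (q : ZMod p) * x)) * (2 + (q : ZMod p) * x)))]
    have h4 : ∑ y : ZMod p, quadraticChar (ZMod p)
        (((J : ZMod p) + (2 + (q : ZMod p) * y)) *
            ((J : ZMod p) + 2 * (2 + (q : ZMod p) * y)) * (2 + (q : ZMod p) * y)) =
        ∑ y : ZMod p, quadraticChar (ZMod p) (((J : ZMod p) + y) * ((J : ZMod p) + 2 * y) * y) :=
      Equiv.sum_comp ((Equiv.mulLeft₀ (q : ZMod p) hq0).trans (Equiv.addLeft (2 : ZMod p)))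
        (fun y => quadraticChar (ZMod p) (((J : ZMod p) + y) * ((J : ZMod p) + 2 * y) * y))
    rw [h4, sum_cubic hp, mul_zero]

/-- **all `n ≡ 3 mod 8`** -/
theorem main (n : ℕ) (hn : n % 8 = 3) : ∃ x : ℤ, (MM n).det = ((n.totient / 2 : ℕ) : ℤ) * x ^ 2 := by
  by_cases hpr : n.Prime
  · have := Fact.mk hpr
    rw [MM_prime, Nat.totient_prime hpr]
    exact det_prime hn
  · refine ⟨0, ?_⟩
    rw [zero_pow two_ne_zero, mul_zero]
    obtain ⟨p, hp, ⟨q, hq⟩, hp4⟩ := exists_three n (by omega)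
    have := Fact.mk hp
    have hmod := congrArg (· % 8) hq
    simp only [Nat.mul_mod p q 8] at hmod
    have hq1 : q ≠ 1 := by
      rintro rfl
      rw [mul_one] at hq
      exact hpr (hq ▸ hp)
    have hq0 : q ≠ 0 := by
      rintro rfl
      omega
    have hq2 : q % 2 = 1 := by
      have h1 := congrArg (· % 2) hq
      simp only [Nat.mul_mod p q 2] at h1
      by_contra h2
      have h3 : q % 2 = 0 := by omega
      rw [h3, mul_zero] at h1
      omega
    by_cases hc : Nat.Coprime q p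
    · have hq5 : 5 ≤ q := by
        by_contra h
        have h3 : q = 3 := by omega
        subst h3
        omega
      exact MM_coprime hq hp4 hq5 hc
    · have hd : p ∣ q := by
        by_contra h
        exact hc ((Nat.Prime.coprime_iff_not_dvd hp).2 h).symm
      exact MM_sq hq (by omega) (by omega) hd

end Pool.Agent.Q267.CD
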